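import Mathlib

/-!
# Definitions for the unexpected cones of geproci sets
-/

set_option autoImplicit false

open MvPolynomial
open scoped LinearAlgebra.Projectivization

namespace Pool.Agent.Helper52.Geproci

variable {K : Type*} [Field K]

/-- The affine cone (without its vertex) over a set `Z` of points of the projective space of
`K ^ n`: all nonzero vectors `v` with `[v] ∈ Z`. -/
def cone {n : ℕ} (Z : Set (ℙ K (Fin n → K))) : Set (Fin n → K) :=
  {v | ∃ h : v ≠ 0, Projectivization.mk K v h ∈ Z}

/-- The ideal `I(Z)` of all polynomials vanishing on the cone over `Z`; over an infinite field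
this is the homogeneous ideal generated by the forms vanishing at the points of `Z`. -/
noncomputable def idealOf {n : ℕ} (Z : Set (ℙ K (Fin n → K))) : Ideal (MvPolynomial (Fin n) K) :=
  vanishingIdeal K (cone Z)

/-- The degree `t` part `[I]_t` of an ideal: the forms of degree `t` in `I`. -/
noncomputable def degPart {n : ℕ} (I : Ideal (MvPolynomial (Fin n) K)) (t : ℕ) :
    Submodule K (MvPolynomial (Fin n) K) :=
  I.restrictScalars K ⊓ homogeneousSubmodule (Fin n) K t

/-- A property holds for a general point of `P^3`: it holds on a nonempty principal open set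
`D(Φ)`, where `Φ` is a nonzero form. -/
def ForGeneralPoint (Q : ℙ K (Fin 4 → K) → Prop) : Prop :=
  ∃ (m : ℕ) (Φ : MvPolynomial (Fin 4) K), Φ.IsHomogeneous m ∧ Φ ≠ 0 ∧
    ∀ (v : Fin 4 → K) (hv : v ≠ 0), eval v Φ ≠ 0 → Q (Projectivization.mk K v hv)

/-- The image of a set of points of `P^3` under the projection to `P^2` defined by a linear map
`π : K ^ 4 → K ^ 3`. -/
def projImage (π : (Fin 4 → K) →ₗ[K] (Fin 3 → K)) (Z : Set (ℙ K (Fin 4 → K))) :
    Set (ℙ K (Fin 3 → K)) :=
  {q | ∃ v ∈ cone Z, ∃ h : π v ≠ 0, q = Projectivization.mk K (π v) h}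

/-- `Y ⊆ P^2` is a (reduced) complete intersection of curves of degrees `a` and `b`: its
homogeneous ideal is generated by a form of degree `a` and a form of degree `b`. -/
def IsCompleteIntersection (a b : ℕ) (Y : Set (ℙ K (Fin 3 → K))) : Prop :=
  ∃ f g : MvPolynomial (Fin 3) K, f.IsHomogeneous a ∧ g.IsHomogeneous b ∧
    idealOf Y = Ideal.span {f, g}

/-- `(a, b)`-geproci sets: finite sets in `P^3` whose projection from a general point `P` to a
plane is a complete intersection of type `(a, b)`. Projection from `P` is given by a linear map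
`π : K ^ 4 → K ^ 3` with kernel the line `P`. -/
def IsGeproci (a b : ℕ) (Z : Set (ℙ K (Fin 4 → K))) : Prop :=
  a ≤ b ∧ Z.Finite ∧ ForGeneralPoint fun P =>
    ∃ π : (Fin 4 → K) →ₗ[K] (Fin 3 → K), LinearMap.ker π = P.submodule ∧
      IsCompleteIntersection a b (projImage π Z)

/-- `Z` is contained in a plane (a three-dimensional subspace of `K ^ 4`). -/
def InPlane (Z : Set (ℙ K (Fin 4 → K))) : Prop :=
  ∃ H : Submodule K (Fin 4 → K), Module.finrank K H = 3 ∧ ∀ P ∈ Z, P.submodule ≤ H

/-- `Z` is an `(a, b)`-grid: `2 ≤ a ≤ b` and `Z` is the intersection of a union of `a` pairwise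
disjoint lines `A i` and a union of `b` pairwise disjoint lines `B j` such that each `A i` meets
each `B j` in exactly one point. Lines are two-dimensional subspaces of `K ^ 4`. -/
def IsGrid (a b : ℕ) (Z : Set (ℙ K (Fin 4 → K))) : Prop :=
  2 ≤ a ∧ a ≤ b ∧ ∃ (A : Fin a → Submodule K (Fin 4 → K)) (B : Fin b → Submodule K (Fin 4 → K)),
    (∀ i, Module.finrank K (A i) = 2) ∧ (∀ j, Module.finrank K (B j) = 2) ∧
    (∀ i i', i ≠ i' → A i ⊓ A i' = ⊥) ∧ (∀ j j', j ≠ j' → B j ⊓ B j' = ⊥) ∧
    (∀ i j, Module.finrank K (A i ⊓ B j : Submodule K (Fin 4 → K)) = 1) ∧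
    Z = {P | (∃ i, P.submodule ≤ A i) ∧ ∃ j, P.submodule ≤ B j}

/-- Condition `C(d)`: `Z` has an unexpected cone of degree `d`, i.e. for a general point `P`
`dim [I(Z) ∩ I(P)^d]_d > max {0, dim [I(Z)]_d - binom(d+2, 3)}`. -/
def CondC (d : ℕ) (Z : Set (ℙ K (Fin 4 → K))) : Prop :=
  ForGeneralPoint fun P =>
    max (0 : ℤ) ((Module.finrank K (degPart (idealOf Z) d) : ℤ) - ((d + 2).choose 3 : ℤ)) <
      (Module.finrank K (degPart (idealOf Z ⊓ idealOf {P} ^ d) d) : ℤ)

end Pool.Agent.Helper52.Geproci
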