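import Pool.Agent.Helper52.Geproci.Defs
import Pool.Agent.Helper52.TwoB

/-!
# Nontrivial `(a, b)`-geproci sets have unexpected cones of degrees `a` and `b`: the proof
-/

set_option autoImplicit false

open MvPolynomial
open scoped LinearAlgebra.Projectivization

namespace Pool.Agent.Helper52.Geproci

variable {K : Type*} [Field K]

open Pool.Agent.Helper52

section aux

lemma eval_smul_homog {n : ℕ} {q : MvPolynomial (Fin n) K} {t : ℕ} (hq : q.IsHomogeneous t)
    (c : K) (v : Fin n → K) : eval (c • v) q = c ^ t * eval v q := by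
  rw [eval_eq', eval_eq', Finset.mul_sum]
  refine Finset.sum_congr rfl fun d hd => ?_
  have h1 : (∏ i, (c • v) i ^ d i) = c ^ t * ∏ i, v i ^ d i := by
    simp only [Pi.smul_apply, smul_eq_mul, mul_pow]
    rw [Finset.prod_mul_distrib, Finset.prod_pow_eq_pow_sum]
    congr 2
    have := hq.degree_eq_sum_deg_support hd
    rw [this]
    symm
    apply Finset.sum_subset (Finset.subset_univ _)
    intro x _ hx
    simpa using hx
  rw [h1]; ring

/-- representatives of the points -/
noncomputable def zrep (Z : Set (ℙ K (Fin 4 → K))) (i : Z) : Fin 4 → K := (i : ℙ K (Fin 4 → K)).rep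

variable {Z : Set (ℙ K (Fin 4 → K))}

lemma zrep_ne (i : Z) : zrep Z i ≠ 0 := Projectivization.rep_nonzero _

lemma mk_zrep (i : Z) : Projectivization.mk K (zrep Z i) (zrep_ne i) = i :=
  Projectivization.mk_rep _

lemma zrep_indep (i j : Z) (hij : i ≠ j) : zrep Z i ∉ Submodule.span K {zrep Z j} := by
  intro h
  rw [Submodule.mem_span_singleton] at h
  apply hij
  apply Subtype.ext
  rw [← mk_zrep i, ← mk_zrep j]
  rwa [Projectivization.mk_eq_mk_iff' K]

lemma mem_cone_zrep (i : Z) : zrep Z i ∈ cone Z := by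
  refine ⟨zrep_ne i, ?_⟩
  rw [mk_zrep]; exact i.2

lemma cone_eq_smul {v : Fin 4 → K} (hv : v ∈ cone Z) : ∃ (i : Z) (c : K), v = c • zrep Z i := by
  obtain ⟨h, hm⟩ := hv
  refine ⟨⟨_, hm⟩, ?_⟩
  obtain ⟨a, ha⟩ := Projectivization.exists_smul_eq_mk_rep K v h
  refine ⟨((a⁻¹ : Kˣ) : K), ?_⟩
  show v = ((a⁻¹ : Kˣ) : K) • (Projectivization.mk K v h).rep
  rw [← ha]
  show v = a⁻¹ • a • v
  rw [inv_smul_smul]

lemma mem_idealOf_iff {q : MvPolynomial (Fin 4) K} {t : ℕ} (hq : q.IsHomogeneous t) :
    q ∈ idealOf Z ↔ ∀ i, eval (zrep Z i) q = 0 := by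
  rw [idealOf, mem_vanishingIdeal_iff]
  constructor
  · intro h i
    have := h _ (mem_cone_zrep i)
    rwa [aeval_eq_eval] at this
  · intro h v hv
    obtain ⟨i, c, rfl⟩ := cone_eq_smul hv
    rw [aeval_eq_eval]
    show eval (c • zrep Z i) q = 0
    rw [eval_smul_homog hq, h i, mul_zero]

lemma degPart_idealOf (t : ℕ) : degPart (idealOf Z) t = van (zrep Z) t := by
  ext q
  rw [degPart, Submodule.mem_inf, mem_van, mem_homogeneousSubmodule]
  constructor
  · rintro ⟨h1, h2⟩
    exact ⟨h2, (mem_idealOf_iff h2).mp h1⟩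
  · rintro ⟨h1, h2⟩
    exact ⟨(mem_idealOf_iff h1).mpr h2, h1⟩

lemma toCIData {a b : ℕ} {π : (Fin 4 → K) →ₗ[K] (Fin 3 → K)}
    (hπ : ∀ i, π (zrep Z i) ≠ 0) (h : IsCompleteIntersection a b (projImage π Z)) :
    ∃ f g, CIData (fun i => π (zrep Z i)) f g a b := by
  obtain ⟨f, g, hf, hg, he⟩ := h
  refine ⟨f, g, hf, hg, ?_⟩
  intro t q hq
  rw [← he, idealOf, mem_vanishingIdeal_iff]
  constructor
  · intro hv w hw
    obtain ⟨hw0, v, hv', hπv, hmk⟩ := hw
    rw [Projectivization.mk_eq_mk_iff'] at hmk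
    obtain ⟨c, rfl⟩ := hmk
    obtain ⟨i, d, rfl⟩ := cone_eq_smul hv'
    rw [map_smul, aeval_eq_eval]
    show eval (c • d • π (zrep Z i)) q = 0
    rw [eval_smul_homog hq, eval_smul_homog hq, hv i]
    ring
  · intro hv i
    have := hv (π (zrep Z i)) ⟨hπ i, zrep Z i, mem_cone_zrep i, hπ i, rfl⟩
    rwa [aeval_eq_eval] at this

/-- The forms pulled back from the plane are cones with vertex `P`. -/
lemma pull_mem_pow {π : (Fin 4 → K) →ₗ[K] (Fin 3 → K)} {P : ℙ K (Fin 4 → K)}
    (hker : LinearMap.ker π = P.submodule) {t : ℕ} {q : MvPolynomial (Fin 3) K}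
    (hq : q.IsHomogeneous t) : pull π q ∈ idealOf {P} ^ t := by
  have h1 : ∀ l : MvPolynomial (Fin 3) K, l.IsHomogeneous 1 → pull π l ∈ idealOf {P} := by
    intro l hl
    rw [idealOf, mem_vanishingIdeal_iff]
    rintro v ⟨hv, hvP⟩
    rw [Set.mem_singleton_iff] at hvP
    rw [aeval_eq_eval]
    show eval v (pull π l) = 0
    rw [eval_pull]
    have : v ∈ LinearMap.ker π := by
      rw [hker, ← hvP, Projectivization.submodule_mk]
      exact Submodule.mem_span_singleton_self v
    rw [LinearMap.mem_ker] at this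
    rw [this]
    have := eval_smul_homog hl 0 0
    simpa using this
  have h2 : ∀ (t : ℕ) (q : MvPolynomial (Fin 3) K), q.IsHomogeneous t →
      pull π q ∈ idealOf {P} ^ t := by
    intro t
    induction t with
    | zero => intro q _; simp
    | succ t ih =>
      intro q hq
      have hqm : q ∈ homogeneousSubmodule (Fin 3) K t * homogeneousSubmodule (Fin 3) K 1 := by
        rw [← homogeneousSubmodule_one_pow (R := K) (σ := Fin 3) t, ← pow_succ,
          homogeneousSubmodule_one_pow]
        exact hq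
      clear hq
      induction hqm using Submodule.mul_induction_on' with
      | add x _ y _ hx hy => rw [map_add]; exact Ideal.add_mem _ hx hy
      | mem_mul_mem m hm l hl =>
        rw [map_mul, pow_succ]
        exact Ideal.mul_mem_mul (ih m hm) (h1 l hl)
  exact h2 t q hq

instance finite_degPart (I : Ideal (MvPolynomial (Fin 4) K)) (t : ℕ) :
    Module.Finite K (degPart I t) :=
  Submodule.finiteDimensional_of_le (inf_le_right : degPart I t ≤ homogeneousSubmodule (Fin 4) K t)

lemma finrank_van_le [Infinite K] {π : (Fin 4 → K) →ₗ[K] (Fin 3 → K)} {P : ℙ K (Fin 4 → K)}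
    (hker : LinearMap.ker π = P.submodule) (hπ : Function.Surjective π) (t : ℕ) :
    Module.finrank K (van (fun i => π (zrep Z i)) t) ≤
      Module.finrank K (degPart (idealOf Z ⊓ idealOf {P} ^ t) t) := by
  have h1 : (van (fun i => π (zrep Z i)) t).map (pull π).toLinearMap ≤
      degPart (idealOf Z ⊓ idealOf {P} ^ t) t := by
    rintro _ ⟨q, hq, rfl⟩
    have hq' := mem_van.mp hq
    have hh := pull_homog π hq'.1
    refine ⟨⟨?_, pull_mem_pow hker hq'.1⟩, hh⟩
    refine (mem_idealOf_iff hh).mpr fun i => ?_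
    rw [eval_pull]
    exact hq'.2 i
  have h2 := Submodule.finrank_mono h1
  refine le_trans (le_of_eq ?_) h2
  exact (LinearEquiv.finrank_eq (Submodule.equivMapOfInjective _ (pull_injective hπ) _))

end aux

section general_position

lemma exists_general {ι : Type*} [Finite ι] (z : ι → Fin 4 → K) :
    ∃ (m : ℕ) (Ψ : MvPolynomial (Fin 4) K), Ψ.IsHomogeneous m ∧ Ψ ≠ 0 ∧
      ∀ p, eval p Ψ ≠ 0 → ∀ i j k, p ∉ Submodule.span K {z i, z j, z k} := by
  classical
  cases nonempty_fintype ι
  have h : ∀ x : ι × ι × ι, ∃ φ : (Fin 4 → K) →ₗ[K] K, φ ≠ 0 ∧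
      Submodule.span K {z x.1, z x.2.1, z x.2.2} ≤ LinearMap.ker φ := by
    intro x
    apply Submodule.exists_le_ker_of_lt_top
    rw [lt_top_iff_ne_top]
    intro htop
    have h1 : Module.finrank K (Submodule.span K {z x.1, z x.2.1, z x.2.2}) ≤ 3 := by
      have := finrank_span_finset_le_card (R := K)
        ({z x.1, z x.2.1, z x.2.2} : Finset (Fin 4 → K))
      rw [Finset.coe_insert, Finset.coe_insert, Finset.coe_singleton] at this
      exact this.trans Finset.card_le_three
    rw [htop, finrank_top, Module.finrank_fin_fun] at h1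
    omega
  choose φ hφ0 hφ using h
  refine ⟨_, ∏ x, lin (φ x), IsHomogeneous.prod _ _ _ fun x _ => lin_homog (φ x), ?_, ?_⟩
  · exact Finset.prod_ne_zero_iff.mpr fun x _ => lin_ne_zero (hφ0 x)
  · intro p hp i j k hmem
    rw [map_prod] at hp
    have h1 := Finset.prod_ne_zero_iff.mp hp (i, j, k) (Finset.mem_univ _)
    rw [eval_lin] at h1
    exact h1 (hφ (i, j, k) hmem)

variable {Z : Set (ℙ K (Fin 4 → K))}

/-- If `p` is outside all planes spanned by the points, the projection is injective on those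
planes. -/
lemma eq_zero_of_proj {ι : Type*} {z : ι → Fin 4 → K} {π : (Fin 4 → K) →ₗ[K] (Fin 3 → K)}
    {p : Fin 4 → K} (hker : LinearMap.ker π = Submodule.span K {p})
    (hp : ∀ i j k, p ∉ Submodule.span K {z i, z j, z k}) {i j k : ι} {x : Fin 4 → K}
    (hx : x ∈ Submodule.span K {z i, z j, z k}) (h : π x = 0) : x = 0 := by
  have h1 : x ∈ Submodule.span K {p} := by rw [← hker]; exact h
  rw [Submodule.mem_span_singleton] at h1
  obtain ⟨c, rfl⟩ := h1
  by_cases hc : c = 0
  · rw [hc, zero_smul]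
  · exfalso
    apply hp i j k
    have := Submodule.smul_mem _ c⁻¹ hx
    rwa [smul_smul, inv_mul_cancel₀ hc, one_smul] at this

lemma finrank_ker_eq {n : ℕ} {φ : (Fin n → K) →ₗ[K] K} (h0 : φ ≠ 0) :
    Module.finrank K (LinearMap.ker φ) + 1 = n := by
  have e1 := LinearMap.finrank_range_add_finrank_ker φ
  rw [Module.finrank_fin_fun] at e1
  have e2 : 1 ≤ Module.finrank K (LinearMap.range φ) := by
    rw [Nat.one_le_iff_ne_zero]
    intro h1
    rw [Submodule.finrank_eq_zero, LinearMap.range_eq_bot] at h1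
    exact h0 h1
  have e3 := Submodule.finrank_le (LinearMap.range φ)
  rw [Module.finrank_self] at e3
  omega

lemma hnd_of {Z : Set (ℙ K (Fin 4 → K))} (h : ¬ InPlane Z) (φ : (Fin 4 → K) →ₗ[K] K)
    (hφ : ∀ i : Z, φ (zrep Z i) = 0) : φ = 0 := by
  by_contra h0
  apply h
  refine ⟨LinearMap.ker φ, ?_, ?_⟩
  · have := finrank_ker_eq h0
    omega
  · intro P hP
    rw [Projectivization.submodule_eq, Submodule.span_singleton_le_iff_mem]
    exact hφ ⟨P, hP⟩

lemma nonempty_of (h : ¬ InPlane Z) : Nonempty Z := by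
  by_contra hne
  apply h
  refine ⟨LinearMap.ker (LinearMap.proj 0 : (Fin 4 → K) →ₗ[K] K), ?_,
    fun P hP => absurd ⟨⟨P, hP⟩⟩ hne⟩
  have h0 : (LinearMap.proj 0 : (Fin 4 → K) →ₗ[K] K) ≠ 0 := by
    intro h0
    have := LinearMap.congr_fun h0 (fun _ => 1)
    simp at this
  have := finrank_ker_eq h0
  omega

/-- Everything we need about the projection from a general point. -/
lemma general_data [Infinite K] {a b : ℕ} (hZ : IsGeproci a b Z) (hnd : ¬ InPlane Z) :
    ∃ (m : ℕ) (Θ : MvPolynomial (Fin 4) K), Θ.IsHomogeneous m ∧ Θ ≠ 0 ∧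
      ∀ p (hp : p ≠ 0), eval p Θ ≠ 0 → ∃ (π : (Fin 4 → K) →ₗ[K] (Fin 3 → K))
        (f g : MvPolynomial (Fin 3) K),
        LinearMap.ker π = (Projectivization.mk K p hp).submodule ∧ Function.Surjective π ∧
        CIData (fun i => π (zrep Z i)) f g a b ∧ f ≠ 0 ∧ g ≠ 0 ∧
        (∀ i, π (zrep Z i) ≠ 0) ∧
        (∀ i j, i ≠ j → π (zrep Z i) ∉ Submodule.span K {π (zrep Z j)}) ∧
        (∀ i j k, LinearIndependent K ![zrep Z i, zrep Z j, zrep Z k] →
          LinearIndependent K ![π (zrep Z i), π (zrep Z j), π (zrep Z k)]) := by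
  obtain ⟨hab, hfin, m, Φ, hΦ, hΦ0, hgen⟩ := hZ
  have : Finite Z := hfin
  obtain ⟨m', Ψ, hΨ, hΨ0, hgen'⟩ := exists_general (zrep Z)
  refine ⟨_, Φ * Ψ, hΦ.mul hΨ, mul_ne_zero hΦ0 hΨ0, ?_⟩
  intro p hp hev
  rw [map_mul] at hev
  obtain ⟨π, hker, hCI⟩ := hgen p hp (left_ne_zero_of_mul hev)
  have hout := hgen' p (right_ne_zero_of_mul hev)
  have hker' : LinearMap.ker π = Submodule.span K {p} := hker
  have hsurj : Function.Surjective π := by
    rw [← LinearMap.range_eq_top]
    apply Submodule.eq_top_of_finrank_eq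
    have e1 := LinearMap.finrank_range_add_finrank_ker π
    rw [hker', finrank_span_singleton hp, Module.finrank_fin_fun] at e1
    rw [Module.finrank_fin_fun]
    omega
  have hmem1 : ∀ i j k : Z, zrep Z i ∈ Submodule.span K {zrep Z i, zrep Z j, zrep Z k} :=
    fun i j k => Submodule.subset_span (by simp)
  have hmem2 : ∀ i j k : Z, zrep Z j ∈ Submodule.span K {zrep Z i, zrep Z j, zrep Z k} :=
    fun i j k => Submodule.subset_span (by simp)
  have hmem3 : ∀ i j k : Z, zrep Z k ∈ Submodule.span K {zrep Z i, zrep Z j, zrep Z k} :=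
    fun i j k => Submodule.subset_span (by simp)
  have hπ0 : ∀ i, π (zrep Z i) ≠ 0 := by
    intro i h0
    exact zrep_ne i (eq_zero_of_proj hker' hout (hmem1 i i i) h0)
  obtain ⟨f, g, hfg⟩ := toCIData hπ0 hCI
  obtain ⟨i0⟩ := nonempty_of hnd
  have hfi : eval (π (zrep Z i0)) f = 0 :=
    (hfg.hI a _ hfg.hf).mpr (Ideal.subset_span (Or.inl rfl)) i0
  have hgi : eval (π (zrep Z i0)) g = 0 :=
    (hfg.hI b _ hfg.hg).mpr (Ideal.subset_span (Or.inr rfl)) i0
  refine ⟨π, f, g, hker, hsurj, hfg, ?_, ?_, hπ0, ?_, ?_⟩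
  · rintro rfl
    have h1 := hfg.relPrime
    rw [isRelPrime_zero_left] at h1
    exact (h1.map (eval (π (zrep Z i0)))).ne_zero hgi
  · rintro rfl
    have h1 := hfg.relPrime
    rw [isRelPrime_zero_right] at h1
    exact (h1.map (eval (π (zrep Z i0)))).ne_zero hfi
  · intro i j hij hmem
    rw [Submodule.mem_span_singleton] at hmem
    obtain ⟨c, hc⟩ := hmem
    have h0 : π (zrep Z i - c • zrep Z j) = 0 := by rw [map_sub, map_smul, hc, sub_self]
    have h1 := eq_zero_of_proj hker' hout (i := i) (j := j) (k := j)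
      (Submodule.sub_mem _ (hmem1 i j j) (Submodule.smul_mem _ c (hmem2 i j j))) h0
    apply zrep_indep i j hij
    rw [Submodule.mem_span_singleton]
    exact ⟨c, (sub_eq_zero.mp h1).symm⟩
  · intro i j k hli
    rw [li3] at hli ⊢
    intro α β γ h0
    apply hli
    apply eq_zero_of_proj hker' hout (i := i) (j := j) (k := k)
    · exact Submodule.add_mem _ (Submodule.add_mem _ (Submodule.smul_mem _ _ (hmem1 i j k))
        (Submodule.smul_mem _ _ (hmem2 i j k))) (Submodule.smul_mem _ _ (hmem3 i j k))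
    · rw [map_add, map_add, map_smul, map_smul, map_smul, h0]

/-- there is a general point -/
lemma exists_point [Infinite K] {Θ : MvPolynomial (Fin 4) K} (hΘ : Θ ≠ 0) :
    ∃ p : Fin 4 → K, p ≠ 0 ∧ eval p Θ ≠ 0 := by
  have h : Θ * X 0 ≠ 0 := mul_ne_zero hΘ (X_ne_zero 0)
  by_contra hno
  push Not at hno
  apply h
  apply MvPolynomial.funext
  intro p
  rw [map_mul, map_zero, eval_X]
  by_cases hp : p = 0
  · rw [hp]; simp
  · rw [hno p hp, zero_mul]

end general_position

section conditionC

variable {Z : Set (ℙ K (Fin 4 → K))}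

theorem condC_of [Infinite K] {a b t : ℕ} (hZ : IsGeproci a b Z) (hnd : ¬ InPlane Z)
    (ha : 2 ≤ a) (hat : a ≤ t) (htb : t + 3 ≤ a + b) : CondC t Z := by
  obtain ⟨m, Θ, hΘ, hΘ0, hgen⟩ := general_data hZ hnd
  have hab : a ≤ b := hZ.1
  have : Finite Z := hZ.2.1
  cases nonempty_fintype Z
  refine ⟨m, Θ, hΘ, hΘ0, ?_⟩
  intro p hp hev
  obtain ⟨π, f, g, hker, hsurj, hCI, hf0, hg0, hy, hy2, -⟩ := hgen p hp hev
  have h1 := im_lt hCI ha (by omega) hy hy2 (hnd_of hnd) hf0 hg0 (t := t) (by omega) htb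
  have h2 := finrank_van_le (Z := Z) hker hsurj t
  have h3 := finrank_im_add_van (fun i => π (zrep Z i)) t
  have h4 := finrank_im_add_van (zrep Z) t
  rw [finrank_homog3] at h3
  rw [finrank_homog4] at h4
  have h5 : (t + 3).choose 3 = (t + 2).choose 2 + (t + 2).choose 3 := Nat.choose_succ_succ _ _
  -- the space of forms of degree `t` vanishing on the projection is nonzero
  have h6 : 0 < Module.finrank K (van (fun i => π (zrep Z i)) t) := by
    have hmem : f * X 0 ^ (t - a) ∈ van (fun i => π (zrep Z i)) t := by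
      rw [mem_van]
      refine ⟨?_, ?_⟩
      · have := hCI.hf.mul (isHomogeneous_X_pow (R := K) (0 : Fin 3) (t - a))
        rwa [Nat.add_sub_cancel' hat] at this
      · intro i
        rw [map_mul, (hCI.hI a _ hCI.hf).mpr (Ideal.subset_span (Or.inl rfl)) i, zero_mul]
    have hne : f * X 0 ^ (t - a) ≠ 0 := mul_ne_zero hf0 (pow_ne_zero _ (X_ne_zero 0))
    have hfd : Module.Finite K (van (fun i => π (zrep Z i)) t) :=
      Submodule.finiteDimensional_of_le
        (inf_le_left : van (fun i => π (zrep Z i)) t ≤ homogeneousSubmodule (Fin 3) K t)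
    rw [Module.finrank_pos_iff_exists_ne_zero]
    exact ⟨⟨_, hmem⟩, fun h => hne (congrArg Subtype.val h)⟩
  rw [degPart_idealOf]
  rw [max_lt_iff]
  constructor
  · exact_mod_cast lt_of_lt_of_le h6 h2
  · omega

end conditionC

section grid

variable {Z : Set (ℙ K (Fin 4 → K))}

lemma pair_span_finrank {V : Type*} [AddCommGroup V] [Module K V] {u w : V} (hu : u ≠ 0)
    (hw : w ∉ Submodule.span K {u}) : Module.finrank K (Submodule.span K {u, w}) = 2 := by
  have hli : LinearIndependent K ![u, w] := by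
    rw [LinearIndependent.pair_iff]
    intro s t hst
    by_cases ht : t = 0
    · subst ht
      rw [zero_smul, add_zero] at hst
      exact ⟨(smul_eq_zero.mp hst).resolve_right hu, rfl⟩
    · exfalso
      apply hw
      rw [Submodule.mem_span_singleton]
      refine ⟨-(t⁻¹ * s), ?_⟩
      have h1 : t • w = -(s • u) := eq_neg_of_add_eq_zero_right hst
      rw [neg_smul, mul_smul, ← smul_neg, ← h1, smul_smul, inv_mul_cancel₀ ht, one_smul]
  have h4 : Submodule.span K {u, w} = Submodule.span K (Set.range ![u, w]) := by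
    congr 1; ext x; simp [or_comm]
  rw [h4, finrank_span_eq_card hli, Fintype.card_fin]

/-- A set consisting of `b` points on each of two skew lines is a `(2, b)`-grid. -/
lemma grid_of_partition {b : ℕ} (hb : 2 ≤ b) (e1 e2 : Fin b → Z) (he1 : Function.Injective e1)
    (he2 : Function.Injective e2) (hcov : ∀ i : Z, (∃ j, e1 j = i) ∨ ∃ j, e2 j = i)
    (L1 L2 : Submodule K (Fin 4 → K)) (hL1 : Module.finrank K L1 = 2)
    (hL2 : Module.finrank K L2 = 2) (hL : L1 ⊓ L2 = ⊥)
    (h1 : ∀ j, zrep Z (e1 j) ∈ L1) (h2 : ∀ j, zrep Z (e2 j) ∈ L2) : IsGrid 2 b Z := by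
  set u : Fin b → Fin 4 → K := fun j => zrep Z (e1 j) with hu
  set w : Fin b → Fin 4 → K := fun j => zrep Z (e2 j) with hw
  have hu0 : ∀ j, u j ≠ 0 := fun j => zrep_ne _
  have hw0 : ∀ j, w j ≠ 0 := fun j => zrep_ne _
  have hdisj : ∀ x, x ∈ L1 → x ∈ L2 → x = 0 := by
    intro x hx1 hx2
    have : x ∈ L1 ⊓ L2 := ⟨hx1, hx2⟩
    rwa [hL, Submodule.mem_bot] at this
  have huu : ∀ j k, j ≠ k → ∀ a c : K, a • u j = c • u k → a = 0 := by
    intro j k hjk a c h
    by_contra ha
    apply zrep_indep (e1 j) (e1 k) (fun h => hjk (he1 h))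
    rw [Submodule.mem_span_singleton]
    refine ⟨a⁻¹ * c, ?_⟩
    show (a⁻¹ * c) • u k = u j
    rw [mul_smul, ← h, smul_smul, inv_mul_cancel₀ ha, one_smul]
  have hww : ∀ j k, j ≠ k → ∀ a c : K, a • w j = c • w k → a = 0 := by
    intro j k hjk a c h
    by_contra ha
    apply zrep_indep (e2 j) (e2 k) (fun h => hjk (he2 h))
    rw [Submodule.mem_span_singleton]
    refine ⟨a⁻¹ * c, ?_⟩
    show (a⁻¹ * c) • w k = w j
    rw [mul_smul, ← h, smul_smul, inv_mul_cancel₀ ha, one_smul]
  have hwu : ∀ j, w j ∉ Submodule.span K {u j} := by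
    intro j h
    apply hw0 j
    apply hdisj _ _ (h2 j)
    exact (Submodule.span_singleton_le_iff_mem (u j) L1).mpr (h1 j) h
  have hI1 : ∀ j, L1 ⊓ Submodule.span K {u j, w j} = Submodule.span K {u j} := by
    intro j
    apply le_antisymm
    · rintro x ⟨hx1, hx2⟩
      have hx2' : x ∈ Submodule.span K {u j, w j} := hx2
      rw [Submodule.mem_span_pair] at hx2'
      obtain ⟨a, c, rfl⟩ := hx2'
      have h3 : c • w j = 0 := by
        apply hdisj _ _ (L2.smul_mem _ (h2 j))
        have := L1.sub_mem hx1 (L1.smul_mem a (h1 j))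
        rwa [add_sub_cancel_left] at this
      rw [h3, add_zero]
      exact Submodule.smul_mem _ _ (Submodule.mem_span_singleton_self _)
    · rw [Submodule.span_singleton_le_iff_mem]
      exact ⟨h1 j, Submodule.subset_span (Or.inl rfl)⟩
  have hI2 : ∀ j, L2 ⊓ Submodule.span K {u j, w j} = Submodule.span K {w j} := by
    intro j
    apply le_antisymm
    · rintro x ⟨hx1, hx2⟩
      have hx2' : x ∈ Submodule.span K {u j, w j} := hx2
      rw [Submodule.mem_span_pair] at hx2'
      obtain ⟨a, c, rfl⟩ := hx2'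
      have h3 : a • u j = 0 := by
        apply hdisj _ (L1.smul_mem _ (h1 j))
        have := L2.sub_mem hx1 (L2.smul_mem c (h2 j))
        rwa [add_sub_cancel_right] at this
      rw [h3, zero_add]
      exact Submodule.smul_mem _ _ (Submodule.mem_span_singleton_self _)
    · rw [Submodule.span_singleton_le_iff_mem]
      exact ⟨h2 j, Submodule.subset_span (Or.inr rfl)⟩
  refine ⟨le_rfl, hb, ![L1, L2], fun j => Submodule.span K {u j, w j}, ?_, ?_, ?_, ?_, ?_, ?_⟩
  · intro i
    fin_cases i
    · exact hL1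
    · exact hL2
  · intro j
    exact pair_span_finrank (hu0 j) (hwu j)
  · intro i i' hii
    fin_cases i <;> fin_cases i'
    · exact absurd rfl hii
    · exact hL
    · show L2 ⊓ L1 = ⊥
      rw [inf_comm]; exact hL
    · exact absurd rfl hii
  · intro j k hjk
    rw [Submodule.eq_bot_iff]
    rintro x ⟨hx1, hx2⟩
    have hx1' : x ∈ Submodule.span K {u j, w j} := hx1
    have hx2' : x ∈ Submodule.span K {u k, w k} := hx2
    rw [Submodule.mem_span_pair] at hx1' hx2'
    obtain ⟨a, c, rfl⟩ := hx1'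
    obtain ⟨a', c', e⟩ := hx2'
    have h3 : a • u j - a' • u k = c' • w k - c • w j := by
      rw [sub_eq_sub_iff_add_eq_add, ← e]; abel
    have h4 : a • u j - a' • u k = 0 := by
      apply hdisj _ (L1.sub_mem (L1.smul_mem _ (h1 j)) (L1.smul_mem _ (h1 k)))
      rw [h3]
      exact L2.sub_mem (L2.smul_mem _ (h2 k)) (L2.smul_mem _ (h2 j))
    have ha := huu j k hjk a a' (sub_eq_zero.mp h4)
    rw [h4] at h3
    have hc := hww j k hjk c c' (sub_eq_zero.mp h3.symm).symm
    rw [ha, hc, zero_smul, zero_smul, add_zero]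
  · intro i j
    fin_cases i
    · show Module.finrank K (L1 ⊓ Submodule.span K {u j, w j} : Submodule K (Fin 4 → K)) = 1
      rw [hI1 j, finrank_span_singleton (hu0 j)]
    · show Module.finrank K (L2 ⊓ Submodule.span K {u j, w j} : Submodule K (Fin 4 → K)) = 1
      rw [hI2 j, finrank_span_singleton (hw0 j)]
  · have key : ∀ (P : ℙ K (Fin 4 → K)) (i : Z), P.submodule ≤ Submodule.span K {zrep Z i} →
        P ∈ Z := by
      intro P i hP
      have h3 : P.submodule = (i : ℙ K (Fin 4 → K)).submodule := by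
        rw [Projectivization.submodule_eq (i : ℙ K (Fin 4 → K))]
        apply Submodule.eq_of_le_of_finrank_le hP
        rw [Projectivization.finrank_submodule, finrank_span_singleton (zrep_ne i)]
      have := Projectivization.submodule_injective h3
      rw [this]; exact i.2
    ext P
    constructor
    · intro hP
      have hsub : P.submodule = Submodule.span K {zrep Z ⟨P, hP⟩} :=
        Projectivization.submodule_eq P
      rcases hcov ⟨P, hP⟩ with ⟨j, hj⟩ | ⟨j, hj⟩
      · have hz : zrep Z ⟨P, hP⟩ = u j := by rw [← hj]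
        refine ⟨⟨0, ?_⟩, ⟨j, ?_⟩⟩
        · rw [hsub, Submodule.span_singleton_le_iff_mem, hz]
          exact h1 j
        · rw [hsub, Submodule.span_singleton_le_iff_mem, hz]
          exact Submodule.subset_span (Or.inl rfl)
      · have hz : zrep Z ⟨P, hP⟩ = w j := by rw [← hj]
        refine ⟨⟨1, ?_⟩, ⟨j, ?_⟩⟩
        · rw [hsub, Submodule.span_singleton_le_iff_mem, hz]
          exact h2 j
        · rw [hsub, Submodule.span_singleton_le_iff_mem, hz]
          exact Submodule.subset_span (Or.inr rfl)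
    · rintro ⟨⟨i, hi⟩, ⟨j, hj⟩⟩
      fin_cases i
      · have h3 : P.submodule ≤ L1 ⊓ Submodule.span K {u j, w j} := le_inf hi hj
        rw [hI1 j] at h3
        exact key P _ h3
      · have h3 : P.submodule ≤ L2 ⊓ Submodule.span K {u j, w j} := le_inf hi hj
        rw [hI2 j] at h3
        exact key P _ h3

lemma top_of_mem (hnd : ¬ InPlane Z) {L : Submodule K (Fin 4 → K)} (h : ∀ i, zrep Z i ∈ L) :
    L = ⊤ := by
  by_contra hne
  obtain ⟨φ, hφ0, hφ⟩ := Submodule.exists_le_ker_of_lt_top _ (lt_top_iff_ne_top.mpr hne)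
  exact hφ0 (hnd_of hnd φ fun i => hφ (h i))

/-- four points -/
lemma grid_of_card_four [Fintype Z] (hnd : ¬ InPlane Z) (hcard : Fintype.card Z = 4) :
    IsGrid 2 2 Z := by
  have e : Fin 4 ≃ Z := (Fintype.equivFinOfCardEq hcard).symm
  have htop : ⊤ ≤ Submodule.span K (Set.range fun j => zrep Z (e j)) := by
    rw [top_of_mem hnd (L := Submodule.span K (Set.range fun j => zrep Z (e j)))]
    intro i
    exact Submodule.subset_span ⟨e.symm i, by simp⟩
  have hli : LinearIndependent K (fun j => zrep Z (e j)) :=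
    linearIndependent_of_top_le_span_of_card_eq_finrank htop (by simp)
  have hli' := Fintype.linearIndependent_iff.mp hli
  have hne : ∀ j k : Fin 4, j ≠ k → zrep Z (e k) ∉ Submodule.span K {zrep Z (e j)} := by
    intro j k hjk
    exact zrep_indep _ _ (fun h => hjk (e.injective h).symm)
  refine grid_of_partition le_rfl ![e 0, e 1] ![e 2, e 3] ?_ ?_ ?_
    (Submodule.span K {zrep Z (e 0), zrep Z (e 1)})
    (Submodule.span K {zrep Z (e 2), zrep Z (e 3)}) ?_ ?_ ?_ ?_ ?_
  · intro j k h
    fin_cases j <;> fin_cases k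
    · rfl
    · exact absurd (e.injective h) (by decide)
    · exact absurd (e.injective h) (by decide)
    · rfl
  · intro j k h
    fin_cases j <;> fin_cases k
    · rfl
    · exact absurd (e.injective h) (by decide)
    · exact absurd (e.injective h) (by decide)
    · rfl
  · intro i
    obtain ⟨j, rfl⟩ := e.surjective i
    fin_cases j
    · exact Or.inl ⟨0, rfl⟩
    · exact Or.inl ⟨1, rfl⟩
    · exact Or.inr ⟨0, rfl⟩
    · exact Or.inr ⟨1, rfl⟩
  · exact pair_span_finrank (zrep_ne _) (hne 0 1 (by decide))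
  · exact pair_span_finrank (zrep_ne _) (hne 2 3 (by decide))
  · rw [Submodule.eq_bot_iff]
    rintro x ⟨hx1, hx2⟩
    have hx1' : x ∈ Submodule.span K {zrep Z (e 0), zrep Z (e 1)} := hx1
    have hx2' : x ∈ Submodule.span K {zrep Z (e 2), zrep Z (e 3)} := hx2
    rw [Submodule.mem_span_pair] at hx1' hx2'
    obtain ⟨a, b, rfl⟩ := hx1'
    obtain ⟨c, d, h⟩ := hx2'
    have := hli' ![a, b, -c, -d] (by
      rw [Fin.sum_univ_four]
      show a • zrep Z (e 0) + b • zrep Z (e 1) + (-c) • zrep Z (e 2) + (-d) • zrep Z (e 3) = 0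
      rw [neg_smul, neg_smul]
      have h1 : a • zrep Z (e 0) + b • zrep Z (e 1) + -(c • zrep Z (e 2)) + -(d • zrep Z (e 3)) =
        (a • zrep Z (e 0) + b • zrep Z (e 1)) - (c • zrep Z (e 2) + d • zrep Z (e 3)) := by abel
      rw [h1, h, sub_self])
    have ha : a = 0 := this 0
    have hb : b = 0 := this 1
    rw [ha, hb, zero_smul, zero_smul, add_zero]
  · intro j
    fin_cases j
    · exact Submodule.subset_span (Or.inl rfl)
    · exact Submodule.subset_span (Or.inr rfl)
  · intro j
    fin_cases j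
    · exact Submodule.subset_span (Or.inl rfl)
    · exact Submodule.subset_span (Or.inr rfl)

/-- Nondegenerate `(2, b)`-geproci sets are grids. -/
theorem grid_of_two [Infinite K] (h2 : (2 : K) ≠ 0) {b : ℕ} (hZ : IsGeproci 2 b Z)
    (hnd : ¬ InPlane Z) : IsGrid 2 b Z := by
  obtain ⟨m, Θ, hΘ, hΘ0, hgen⟩ := general_data hZ hnd
  have hb : 2 ≤ b := hZ.1
  have : Finite Z := hZ.2.1
  cases nonempty_fintype Z
  obtain ⟨p, hp, hev⟩ := exists_point hΘ0
  obtain ⟨π, f, g, hker, hsurj, hCI, hf0, hg0, hy, hy2, hli⟩ := hgen p hp hev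
  have hcard : Fintype.card Z = 2 * b := hCI.card_eq hf0 hg0 hy hy2
  rcases Nat.lt_or_ge b 3 with hb3 | hb3
  · have hb2 : b = 2 := by omega
    subst hb2
    exact grid_of_card_four hnd hcard
  · -- all vertices carry a cone
    have hcone : ∀ q, HasCone (zrep Z) q := by
      apply hasCone_of_general (zrep Z) (Θ * X 0) (mul_ne_zero hΘ0 (X_ne_zero 0))
      intro q hq
      rw [map_mul, eval_X] at hq
      have hq0 : q ≠ 0 := by
        rintro rfl
        exact right_ne_zero_of_mul hq rfl
      obtain ⟨π, f, g, hker, hsurj, hCI, hf0, -⟩ := hgen q hq0 (left_ne_zero_of_mul hq)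
      obtain ⟨B, hB, hBf⟩ := exists_bilin h2 hCI.hf
      refine ⟨B.compl₁₂ π π, ?_, ?_, ?_, ?_⟩
      · intro h0
        apply hf0
        apply MvPolynomial.funext
        intro x
        obtain ⟨v, rfl⟩ := hsurj x
        rw [← hBf, map_zero]
        have := LinearMap.congr_fun (LinearMap.congr_fun h0 v) v
        simpa using this
      · intro u v
        simp only [LinearMap.compl₁₂_apply]
        exact hB _ _
      · intro v
        have hq : π q = 0 := by
          have : q ∈ LinearMap.ker π := by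
            rw [hker, Projectivization.submodule_mk]
            exact Submodule.mem_span_singleton_self q
          exact this
        simp only [LinearMap.compl₁₂_apply]
        rw [hq, map_zero, LinearMap.zero_apply]
      · intro i
        simp only [LinearMap.compl₁₂_apply]
        rw [hBf]
        exact (hCI.hI 2 _ hCI.hf).mpr (Ideal.subset_span (Or.inl rfl)) i
    obtain ⟨i, j, k, hij, hik, hjk, hdep⟩ :=
      exists_collinear h2 (by rw [hcard]; omega) hcone (hnd_of hnd)
    have hdep' : ¬ LinearIndependent K ![π (zrep Z i), π (zrep Z j), π (zrep Z k)] := by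
      intro h
      apply hdep
      rw [li3] at h ⊢
      intro α β γ h0
      apply h
      rw [← map_smul, ← map_smul, ← map_smul, ← map_add, ← map_add, h0, map_zero]
    obtain ⟨φ, ψ, hφ0, hψ0, hcφ, hcψ, hor⟩ := hCI.split h2 hf0 hg0 hy hy2 hij hik hjk hdep'
    classical
    -- enumerate
    have E1 : Fin b ≃ {i // ψ (π (zrep Z i)) ≠ 0} :=
      (Fintype.equivFinOfCardEq (by rw [← Nat.card_eq_fintype_card, hcψ])).symm
    have E2 : Fin b ≃ {i // φ (π (zrep Z i)) ≠ 0} :=
      (Fintype.equivFinOfCardEq (by rw [← Nat.card_eq_fintype_card, hcφ])).symm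
    have hcov : ∀ i : Z, ψ (π (zrep Z i)) ≠ 0 ∨ φ (π (zrep Z i)) ≠ 0 := by
      by_contra hno
      push Not at hno
      obtain ⟨i0, hi1, hi2⟩ := hno
      let A := Finset.univ.filter (fun i : Z => ψ (π (zrep Z i)) ≠ 0)
      let B := Finset.univ.filter (fun i : Z => φ (π (zrep Z i)) ≠ 0)
      have hA : A.card = b := by
        rw [← hcψ, Nat.card_eq_fintype_card, Fintype.card_subtype]
      have hB : B.card = b := by
        rw [← hcφ, Nat.card_eq_fintype_card, Fintype.card_subtype]
      have hAB : Disjoint A B := by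
        rw [Finset.disjoint_left]
        intro x hxA hxB
        simp only [A, B, Finset.mem_filter, Finset.mem_univ, true_and] at hxA hxB
        rcases hor x with h | h
        · exact hxB h
        · exact hxA h
      have h3 : (A ∪ B).card = 2 * b := by
        rw [Finset.card_union_of_disjoint hAB, hA, hB]; ring
      have h4 : A ∪ B = Finset.univ := by
        apply Finset.eq_univ_of_card
        rw [h3, hcard]
      have h5 : i0 ∈ A ∪ B := by rw [h4]; exact Finset.mem_univ _
      rw [Finset.mem_union] at h5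
      simp only [A, B, Finset.mem_filter, Finset.mem_univ, true_and] at h5
      rcases h5 with h | h
      · exact h hi1
      · exact h hi2
    -- the lines
    have hline : ∀ (χ : (Fin 3 → K) →ₗ[K] K), χ ≠ 0 → ∀ i0 i1 k : Z, i0 ≠ i1 →
        χ (π (zrep Z i0)) = 0 → χ (π (zrep Z i1)) = 0 → χ (π (zrep Z k)) = 0 →
        zrep Z k ∈ Submodule.span K {zrep Z i0, zrep Z i1} := by
      intro χ hχ i0 i1 k h01 h0 h1 hk
      by_contra hmem
      have hind : LinearIndependent K ![zrep Z i0, zrep Z i1, zrep Z k] := by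
        rw [li3]
        intro α β γ h
        have hγ : γ = 0 := by
          by_contra hγ
          apply hmem
          rw [Submodule.mem_span_pair]
          refine ⟨-(γ⁻¹ * α), -(γ⁻¹ * β), ?_⟩
          have h3 : γ • zrep Z k = -(α • zrep Z i0 + β • zrep Z i1) :=
            eq_neg_of_add_eq_zero_right h
          have h4 : -(γ⁻¹ * α) • zrep Z i0 + -(γ⁻¹ * β) • zrep Z i1 =
              γ⁻¹ • (-(α • zrep Z i0 + β • zrep Z i1)) := by
            rw [smul_neg, smul_add, smul_smul, smul_smul, neg_smul, neg_smul, neg_add]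
          rw [h4, ← h3, smul_smul, inv_mul_cancel₀ hγ, one_smul]
        subst hγ
        rw [zero_smul, add_zero] at h
        have hα : α = 0 := by
          by_contra hα
          apply zrep_indep i0 i1 h01
          rw [Submodule.mem_span_singleton]
          refine ⟨-(α⁻¹ * β), ?_⟩
          have h3 : α • zrep Z i0 = -(β • zrep Z i1) := eq_neg_of_add_eq_zero_left h
          rw [neg_smul, mul_smul, ← smul_neg, ← h3, smul_smul, inv_mul_cancel₀ hα, one_smul]
        subst hα
        rw [zero_smul, zero_add] at h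
        exact ⟨rfl, (smul_eq_zero.mp h).resolve_right (zrep_ne _), rfl⟩
      have h5 := hli i0 i1 k hind
      have h6 : Submodule.span K (Set.range ![π (zrep Z i0), π (zrep Z i1), π (zrep Z k)]) ≤
          LinearMap.ker χ := by
        rw [Submodule.span_le]
        rintro x ⟨j, rfl⟩
        fin_cases j
        · exact h0
        · exact h1
        · exact hk
      have h7 := Submodule.finrank_mono h6
      rw [finrank_span_eq_card h5, Fintype.card_fin] at h7
      have h8 := finrank_ker_eq hχ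
      omega
    have hφE : ∀ j, φ (π (zrep Z (E1 j))) = 0 := by
      intro j
      exact (hor _).resolve_right (E1 j).2
    have hψE : ∀ j, ψ (π (zrep Z (E2 j))) = 0 := by
      intro j
      exact (hor _).resolve_left (E2 j).2
    have hinj1 : Function.Injective (fun j => (E1 j : Z)) :=
      fun j k h => E1.injective (Subtype.ext h)
    have hinj2 : Function.Injective (fun j => (E2 j : Z)) :=
      fun j k h => E2.injective (Subtype.ext h)
    have h01 : (⟨0, by omega⟩ : Fin b) ≠ ⟨1, by omega⟩ := by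
      intro h; exact absurd (congrArg Fin.val h) (by norm_num)
    set a0 : Fin b := ⟨0, by omega⟩
    set a1 : Fin b := ⟨1, by omega⟩
    have hne1 : (E1 a0 : Z) ≠ E1 a1 := fun h => h01 (hinj1 h)
    have hne2 : (E2 a0 : Z) ≠ E2 a1 := fun h => h01 (hinj2 h)
    set L1 := Submodule.span K {zrep Z (E1 a0), zrep Z (E1 a1)} with hL1
    set L2 := Submodule.span K {zrep Z (E2 a0), zrep Z (E2 a1)} with hL2
    have m1 : ∀ j, zrep Z (E1 j) ∈ L1 := fun j =>
      hline φ hφ0 _ _ _ hne1 (hφE a0) (hφE a1) (hφE j)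
    have m2 : ∀ j, zrep Z (E2 j) ∈ L2 := fun j =>
      hline ψ hψ0 _ _ _ hne2 (hψE a0) (hψE a1) (hψE j)
    have hcov' : ∀ i : Z, (∃ j, (E1 j : Z) = i) ∨ ∃ j, (E2 j : Z) = i := by
      intro i
      rcases hcov i with h | h
      · exact Or.inl ⟨E1.symm ⟨i, h⟩, by simp⟩
      · exact Or.inr ⟨E2.symm ⟨i, h⟩, by simp⟩
    have d1 : Module.finrank K L1 = 2 :=
      pair_span_finrank (zrep_ne _) (zrep_indep _ _ (Ne.symm hne1))
    have d2 : Module.finrank K L2 = 2 :=
      pair_span_finrank (zrep_ne _) (zrep_indep _ _ (Ne.symm hne2))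
    have hsup : L1 ⊔ L2 = ⊤ := by
      apply top_of_mem hnd
      intro i
      rcases hcov' i with ⟨j, rfl⟩ | ⟨j, rfl⟩
      · exact Submodule.mem_sup_left (m1 j)
      · exact Submodule.mem_sup_right (m2 j)
    have hinf : L1 ⊓ L2 = ⊥ := by
      have h3 := Submodule.finrank_sup_add_finrank_inf_eq L1 L2
      rw [hsup, finrank_top, Module.finrank_fin_fun, d1, d2] at h3
      have h4 : Module.finrank K (L1 ⊓ L2 : Submodule K (Fin 4 → K)) = 0 := by omega
      exact Submodule.finrank_eq_zero.mp h4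
    exact grid_of_partition hb (fun j => E1 j) (fun j => E2 j) hinj1 hinj2 hcov' L1 L2 d1 d2 hinf
      m1 m2

/-- Nondegenerate geproci sets have `a ≥ 2`. -/
theorem two_le [Infinite K] {a b : ℕ} (hZ : IsGeproci a b Z) (hnd : ¬ InPlane Z) : 2 ≤ a := by
  obtain ⟨m, Θ, hΘ, hΘ0, hgen⟩ := general_data hZ hnd
  obtain ⟨p, hp, hev⟩ := exists_point hΘ0
  obtain ⟨π, f, g, hker, hsurj, hCI, hf0, -⟩ := hgen p hp hev
  obtain ⟨i0⟩ := nonempty_of hnd
  have hv : ∀ i, eval (π (zrep Z i)) f = 0 :=
    (hCI.hI a _ hCI.hf).mpr (Ideal.subset_span (Or.inl rfl))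
  by_contra hlt
  have : a = 0 ∨ a = 1 := by omega
  rcases this with rfl | rfl
  · have h1 := (totalDegree_zero_iff_isHomogeneous (σ := Fin 3)).mpr hCI.hf
    rw [totalDegree_eq_zero_iff_eq_C] at h1
    have h2 := hv i0
    rw [h1, eval_C] at h2
    rw [h2, map_zero] at h1
    exact hf0 h1
  · obtain ⟨φ, rfl⟩ := exists_eq_lin hCI.hf
    have h1 : φ ∘ₗ π = 0 := by
      apply hnd_of hnd
      intro i
      have := hv i
      rwa [eval_lin] at this
    apply hf0
    have h2 : φ = 0 := by
      apply LinearMap.ext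
      intro x
      obtain ⟨v, rfl⟩ := hsurj x
      exact LinearMap.congr_fun h1 v
    rw [h2]
    simp [lin]

end grid

end Pool.Agent.Helper52.Geproci
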